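import Pool.Agent.Y921.PL.Final

/-!
# Plichko biduals of non-Plichko spaces: every uncountable density character

Kalenda asks whether a Banach space with a Plichko bidual must be Plichko.  The starting result
`BidualPlichko` gives one real Banach space for which this fails.  Here the question is answered
for every density character: separable spaces are Plichko, and for every uncountable set `K`
there is a real Banach space `X` of density character `|K|` with the following properties.

* The dual of `X` is isomorphic to `ℓ∞(K)`; in particular the bidual of `X` is Plichko.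
* There is a countable set `W` in `X` such that no bounded operator on `X` with separable range
  fixes all points of `W` (so `X` fails the separable complementation property), and no bounded
  operator on `X` that factors through a Plichko space fixes all points of `W`.  In particular `X`
  is not Plichko and not isomorphic to a complemented subspace of a Plichko space.
-/

set_option autoImplicit false

open scoped ENNReal BigOperators Topology
open Filter TopologicalSpace

namespace Pool.Agent.Results.MP_828627_an.EveryUncountableDensity

/-- A linear subspace `N` of the dual of `X` is norming: there is `c > 0` with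
`sup {|f x| : f ∈ N, ‖f‖ ≤ 1} ≥ c ‖x‖` for all `x`. -/
def IsNorming {X : Type} [NormedAddCommGroup X] [NormedSpace ℝ X]
    (N : Submodule ℝ (X →L[ℝ] ℝ)) : Prop :=
  ∃ c : ℝ, 0 < c ∧ ∀ x : X, c * ‖x‖ ≤ sSup {r : ℝ | ∃ f ∈ N, ‖f‖ ≤ 1 ∧ r = |f x|}

/-- Plichko spaces: there are a linearly dense set `S` and a norming subspace `N` of the dual such
that every `f ∈ N` is nonzero at only countably many points of `S`. -/
def IsPlichko (X : Type) [NormedAddCommGroup X] [NormedSpace ℝ X] : Prop :=
  ∃ (S : Set X) (N : Submodule ℝ (X →L[ℝ] ℝ)),
    Dense (Submodule.span ℝ S : Set X) ∧ IsNorming N ∧ ∀ f ∈ N, {s | s ∈ S ∧ f s ≠ 0}.Countable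

/-- The density character of `X` (the smallest cardinality of a dense set) is that of `K`. -/
def DensityEq (X : Type) [TopologicalSpace X] (K : Type) : Prop :=
  (∃ D : Set X, Dense D ∧ Cardinal.mk D ≤ Cardinal.mk K) ∧
    ∀ D : Set X, Dense D → Cardinal.mk K ≤ Cardinal.mk D

/-- **Plichko biduals.** Every separable Banach space is Plichko.  For every uncountable `K` there
is a Banach space `X` of density character `|K|` whose dual is isomorphic to `ℓ∞(K)` and whose
bidual is Plichko, with a countable subset `W` such that no bounded operator with separable range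
is the identity on `W` and no composition `X → Y → X` of bounded operators through a Plichko space
`Y` is the identity on `W`. -/
theorem result :
    (∀ (X : Type) [NormedAddCommGroup X] [NormedSpace ℝ X] [SeparableSpace X], IsPlichko X) ∧
    ∀ (K : Type) [Uncountable K], ∃ (X : Type) (_ : NormedAddCommGroup X) (_ : NormedSpace ℝ X)
      (_ : CompleteSpace X),
      DensityEq X K ∧
      Nonempty ((X →L[ℝ] ℝ) ≃L[ℝ] lp (fun _ : K => ℝ) ∞) ∧
      IsPlichko ((X →L[ℝ] ℝ) →L[ℝ] ℝ) ∧
      ∃ W : Set X, W.Countable ∧
        (∀ T : X →L[ℝ] X, IsSeparable (Set.range T) → ∃ w ∈ W, T w ≠ w) ∧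
        ∀ (Y : Type) [NormedAddCommGroup Y] [NormedSpace ℝ Y] [CompleteSpace Y], IsPlichko Y →
          ∀ (u : X →L[ℝ] Y) (v : Y →L[ℝ] X), ∃ w ∈ W, v (u w) ≠ w := by
  constructor
  · intro X _ _ _
    exact Pool.Agent.Y921.PL.isPlichko_of_separable X
  · intro K _
    obtain ⟨A, hA⟩ := Pool.Agent.Y921.PL.exists_branches
    obtain ⟨e⟩ := Pool.Agent.Y921.PL.dualXX A K hA
    exact ⟨Pool.Agent.Y921.PL.XX A K, inferInstance, inferInstance,
      Pool.Agent.Y921.PL.completeXX A K, Pool.Agent.Y921.PL.densityXX A K hA, ⟨e⟩,
      Pool.Agent.Helper893.V.isPlichko_bidual e, Pool.Agent.Y921.PL.not_factor A K hA⟩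

end Pool.Agent.Results.MP_828627_an.EveryUncountableDensity
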